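import Mathlib
import Pool.Agent.helper51.Clo.Main

set_option autoImplicit false

namespace Pool.Agent.Results.MP_c0a48b_al.AlephOne

/-- A family of sets of finitary operations on the countable set `ℕ`; the set with index `n`
consists of operations of arity `n + 1`. -/
abbrev OpFam : Type := ∀ n : ℕ, Set ((Fin (n + 1) → ℕ) → ℕ)

/-- `C` is a local clone on `ℕ`: it contains all projections, is closed under composition, and is
locally closed. -/
structure IsLocalClone (C : OpFam) : Prop where
  proj : ∀ (n : ℕ) (i : Fin (n + 1)), (fun x : Fin (n + 1) → ℕ => x i) ∈ C n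
  comp : ∀ (n m : ℕ) (g : (Fin (n + 1) → ℕ) → ℕ) (hs : Fin (n + 1) → (Fin (m + 1) → ℕ) → ℕ),
    g ∈ C n → (∀ i, hs i ∈ C m) → (fun x : Fin (m + 1) → ℕ => g (fun i => hs i x)) ∈ C m
  closed : ∀ (n : ℕ) (g : (Fin (n + 1) → ℕ) → ℕ),
    (∀ F : Finset (Fin (n + 1) → ℕ), ∃ h ∈ C n, ∀ x ∈ F, h x = g x) → g ∈ C n

/-- `L` admits a lattice embedding into the lattice of local clones on `ℕ`: an injective map `f`
into local clones such that `f (a ⊓ b)` is the intersection of `f a` and `f b`, and `f (a ⊔ b)` is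
the least local clone containing `f a` and `f b`. -/
def EmbedsInLocalClones (L : Type) [Lattice L] : Prop :=
  ∃ f : L → OpFam, Function.Injective f ∧ (∀ a, IsLocalClone (f a)) ∧
    (∀ a b, f (a ⊓ b) = f a ⊓ f b) ∧
    (∀ a b, f a ≤ f (a ⊔ b) ∧ f b ≤ f (a ⊔ b)) ∧
    (∀ a b C, IsLocalClone C → f a ≤ C → f b ≤ C → f (a ⊔ b) ≤ C)

theorem isLocalClone_iff (C : OpFam) : IsLocalClone C ↔ Pool.Agent.helper51.Clo.IsLocalClone C :=
  ⟨fun h => ⟨h.proj, h.comp, h.closed⟩, fun h => ⟨h.proj, h.comp, h.closed⟩⟩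

theorem wellFounded_of_chains {L : Type} [PartialOrder L]
    (h : ∀ s : Set L, IsChain (· ≤ ·) s → s.Finite) :
    WellFounded ((· < ·) : L → L → Prop) ∧ WellFounded ((· > ·) : L → L → Prop) := by
  constructor
  · rw [RelEmbedding.wellFounded_iff_isEmpty]
    refine ⟨fun f => ?_⟩
    have h1 : IsChain (· ≤ ·) (Set.range f) := by
      rintro _ ⟨a, rfl⟩ _ ⟨b, rfl⟩ _
      rcases lt_trichotomy a b with h | rfl | h
      · exact Or.inr (f.map_rel_iff.2 h).le
      · exact Or.inl le_rfl
      · exact Or.inl (f.map_rel_iff.2 h).le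
    exact Set.infinite_range_of_injective f.injective (h _ h1)
  · rw [RelEmbedding.wellFounded_iff_isEmpty]
    refine ⟨fun f => ?_⟩
    have h1 : IsChain (· ≤ ·) (Set.range f) := by
      rintro _ ⟨a, rfl⟩ _ ⟨b, rfl⟩ _
      rcases lt_trichotomy a b with h | rfl | h
      · have h2 : f b > f a := f.map_rel_iff.2 h
        exact Or.inl h2.le
      · exact Or.inl le_rfl
      · have h2 : f a > f b := f.map_rel_iff.2 h
        exact Or.inr h2.le
    exact Set.infinite_range_of_injective f.injective (h _ h1)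

/-- Every lattice with at most `ℵ₁` elements all of whose chains are finite (in particular every
lattice of finite height with at most `ℵ₁` elements) admits a lattice embedding into the lattice of
local clones on a countably infinite set. -/
theorem result (L : Type) [Lattice L] (hcard : Cardinal.mk L ≤ Cardinal.aleph 1)
    (hchain : ∀ s : Set L, IsChain (· ≤ ·) s → s.Finite) : EmbedsInLocalClones L := by
  obtain ⟨hlt, hgt⟩ := wellFounded_of_chains hchain
  obtain ⟨f, h1, h2, h3, h4, h5⟩ :=
    Pool.Agent.helper51.Clo.embeds_of_le_aleph_one L hcard hlt hgt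
  exact ⟨f, h1, fun a => (isLocalClone_iff _).2 (h2 a), h3, h4,
    fun a b C hC => h5 a b C ((isLocalClone_iff C).1 hC)⟩

end Pool.Agent.Results.MP_c0a48b_al.AlephOne
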