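import Mathlib

set_option autoImplicit false

namespace Pool.Agent.Results.MP_c0a48b_al.EmbeddingForcesRectangles

/-- A family of sets of finitary operations on the countable set `ℕ`; the set with index `n`
consists of operations of arity `n + 1`. -/
abbrev OpFam : Type := ∀ n : ℕ, Set ((Fin (n + 1) → ℕ) → ℕ)

/-- `C` is a local clone on `ℕ`: it contains all projections, is closed under composition, and is
locally closed. -/
structure IsLocalClone (C : OpFam) : Prop where
  proj : ∀ (n : ℕ) (i : Fin (n + 1)), (fun x : Fin (n + 1) → ℕ => x i) ∈ C n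
  comp : ∀ (n m : ℕ) (g : (Fin (n + 1) → ℕ) → ℕ) (hs : Fin (n + 1) → (Fin (m + 1) → ℕ) → ℕ),
    g ∈ C n → (∀ i, hs i ∈ C m) → (fun x : Fin (m + 1) → ℕ => g (fun i => hs i x)) ∈ C m
  closed : ∀ (n : ℕ) (g : (Fin (n + 1) → ℕ) → ℕ),
    (∀ F : Finset (Fin (n + 1) → ℕ), ∃ h ∈ C n, ∀ x ∈ F, h x = g x) → g ∈ C n

/-- `L` admits a lattice embedding into the lattice of local clones on `ℕ`: an injective map `f`
into local clones such that `f (a ⊓ b)` is the intersection of `f a` and `f b`, and `f (a ⊔ b)` is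
the least local clone containing `f a` and `f b`. -/
def EmbedsInLocalClones (L : Type) [Lattice L] : Prop :=
  ∃ f : L → OpFam, Function.Injective f ∧ (∀ a, IsLocalClone (f a)) ∧
    (∀ a b, f (a ⊓ b) = f a ⊓ f b) ∧
    (∀ a b, f a ≤ f (a ⊔ b) ∧ f b ≤ f (a ⊔ b)) ∧
    (∀ a b C, IsLocalClone C → f a ≤ C → f b ≤ C → f (a ⊔ b) ≤ C)

/-! ### Finite partial operations -/

/-- finite sets of input/output pairs, arity `n+1`. -/
abbrev PF (n : ℕ) : Type := Finset ((Fin (n + 1) → ℕ) × ℕ)

/-- The finite partial operations extended by some member of `C`. -/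
def tr (C : OpFam) : Set (Σ n, PF n) :=
  {s | ∃ h ∈ C s.1, ∀ p ∈ s.2, h p.1 = p.2}

/-- Finite partial operations derivable from `S` by partial composition. -/
inductive Gen (S : Set (Σ n, PF n)) : ∀ n : ℕ, PF n → Prop
  | proj (n : ℕ) (i : Fin (n + 1)) (s : PF n) (h : ∀ p ∈ s, p.2 = p.1 i) : Gen S n s
  | base (n : ℕ) (s : PF n) (h : (⟨n, s⟩ : Σ n, PF n) ∈ S) : Gen S n s
  | comp (n m : ℕ) (t : PF n) (u : Fin (n + 1) → PF m) (s : PF m) (ht : Gen S n t)
      (hu : ∀ i, Gen S m (u i))
      (hs : ∀ p ∈ s, ∃ z : Fin (n + 1) → ℕ, (z, p.2) ∈ t ∧ ∀ i, (p.1, z i) ∈ u i) : Gen S m s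

theorem Gen.mono {S S' : Set (Σ n, PF n)} (h : S ⊆ S') {n : ℕ} {s : PF n} (hs : Gen S n s) :
    Gen S' n s := by
  induction hs with
  | proj n i s h1 => exact Gen.proj n i s h1
  | base n s h1 => exact Gen.base n s (h h1)
  | comp n m t u s _ _ h1 iht ihu => exact Gen.comp n m t u s iht ihu h1

theorem Gen.finitary {S : Set (Σ n, PF n)} {n : ℕ} {s : PF n} (hs : Gen S n s) :
    ∃ A : Finset (Σ n, PF n), (A : Set (Σ n, PF n)) ⊆ S ∧ Gen (A : Set (Σ n, PF n)) n s := by
  classical
  induction hs with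
  | proj n i s h1 => exact ⟨∅, by simp, Gen.proj n i s h1⟩
  | base n s h1 => exact ⟨{⟨n, s⟩}, by simpa using h1, Gen.base n s (by simp)⟩
  | comp n m t u s _ _ h1 iht ihu =>
    obtain ⟨A, hA, hAg⟩ := iht
    choose B hB hBg using ihu
    refine ⟨A ∪ Finset.univ.biUnion B, ?_, ?_⟩
    · intro x hx
      simp only [Finset.coe_union, Finset.coe_biUnion, Set.mem_union, Set.mem_iUnion] at hx
      rcases hx with hx | ⟨i, _, hx⟩
      · exact hA hx
      · exact hB i hx
    · refine Gen.comp n m t u s (hAg.mono ?_) (fun i => (hBg i).mono ?_) h1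
      · intro x hx
        simp only [Finset.coe_union, Set.mem_union]
        exact Or.inl hx
      · intro x hx
        simp only [Finset.coe_union, Finset.coe_biUnion, Set.mem_union, Set.mem_iUnion]
        exact Or.inr ⟨i, by simp, hx⟩

/-- The local clone defined by a set of finite partial operations. -/
def cl (S : Set (Σ n, PF n)) : OpFam :=
  fun n => {g | ∀ s : PF n, (∀ p ∈ s, g p.1 = p.2) → Gen S n s}

theorem isLocalClone_cl (S : Set (Σ n, PF n)) : IsLocalClone (cl S) := by
  classical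
  refine ⟨?_, ?_, ?_⟩
  · intro n i s hs
    exact Gen.proj n i s (fun p hp => (hs p hp).symm)
  · intro n m g hs hg hhs s hsg
    refine Gen.comp n m (s.image (fun p => ((fun i => hs i p.1), p.2)))
      (fun i => s.image (fun p => (p.1, hs i p.1))) s (hg _ ?_) (fun i => hhs i _ ?_) ?_
    · intro p hp
      simp only [Finset.mem_image] at hp
      obtain ⟨q, hq, rfl⟩ := hp
      exact hsg q hq
    · intro p hp
      simp only [Finset.mem_image] at hp
      obtain ⟨q, hq, rfl⟩ := hp
      rfl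
    · intro p hp
      refine ⟨fun i => hs i p.1, ?_, fun i => ?_⟩
      · exact Finset.mem_image.2 ⟨p, hp, rfl⟩
      · exact Finset.mem_image.2 ⟨p, hp, rfl⟩
  · intro n g h s hs
    obtain ⟨k, hk, hkg⟩ := h (s.image Prod.fst)
    refine hk s (fun p hp => ?_)
    rw [hkg p.1 (Finset.mem_image.2 ⟨p, hp, rfl⟩)]
    exact hs p hp

theorem le_cl {C : OpFam} {S : Set (Σ n, PF n)} (h : tr C ⊆ S) : C ≤ cl S := by
  intro n g hg s hs
  exact Gen.base n s (h ⟨g, hg, hs⟩)

theorem mem_tr_of_gen {E : OpFam} (hE : IsLocalClone E) {S : Set (Σ n, PF n)} (hS : S ⊆ tr E)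
    {n : ℕ} {s : PF n} (hs : Gen S n s) : (⟨n, s⟩ : Σ n, PF n) ∈ tr E := by
  induction hs with
  | proj n i s h1 => exact ⟨_, hE.proj n i, fun p hp => (h1 p hp).symm⟩
  | base n s h1 => exact hS h1
  | comp n m t u s _ _ h1 iht ihu =>
    obtain ⟨g, hg, hgt⟩ := iht
    choose k hk hku using ihu
    refine ⟨_, hE.comp n m g k hg hk, fun p hp => ?_⟩
    obtain ⟨z, hz, hzu⟩ := h1 p hp
    have h2 : (fun i => k i p.1) = z := funext fun i => hku i _ (hzu i)
    show g (fun i => k i p.1) = p.2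
    rw [h2]
    exact hgt _ hz

theorem tr_mono {C D : OpFam} (h : C ≤ D) : tr C ⊆ tr D := by
  rintro s ⟨g, hg, hgs⟩
  exact ⟨g, h s.1 hg, hgs⟩

theorem le_of_tr {C D : OpFam} (hD : IsLocalClone D) (h : tr C ⊆ tr D) : C ≤ D := by
  classical
  intro n g hg
  refine hD.closed n g (fun F => ?_)
  have h1 : (⟨n, F.image (fun x => (x, g x))⟩ : Σ n, PF n) ∈ tr C := by
    refine ⟨g, hg, ?_⟩
    intro p hp
    simp only [Finset.mem_image] at hp
    obtain ⟨x, _, rfl⟩ := hp
    rfl
  obtain ⟨k, hk, hks⟩ := h h1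
  exact ⟨k, hk, fun x hx => hks (x, g x) (Finset.mem_image.2 ⟨x, hx, rfl⟩)⟩

/-- In an embedded lattice, the relation `c ≤ a ⊔ b` is a countable intersection of countable
unions of rectangles. -/
theorem sup_relation {L : Type} [Lattice L] (hL : EmbedsInLocalClones L) (c : L) :
    ∃ A B : ℕ → ℕ → Set L, {p : L × L | c ≤ p.1 ⊔ p.2} = ⋂ n, ⋃ k, A n k ×ˢ B n k := by
  classical
  obtain ⟨f, finj, fcl, finf, fsup, fleast⟩ := hL
  -- order
  have hle : ∀ a b : L, f a ≤ f b → a ≤ b := by
    intro a b hab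
    have h1 : f (a ⊓ b) = f a := by rw [finf]; exact inf_eq_left.2 hab
    exact inf_eq_left.1 (finj h1)
  have hmono : ∀ a b : L, a ≤ b → f a ≤ f b := by
    intro a b hab
    have h1 := (fsup a b).1
    rwa [sup_eq_right.2 hab] at h1
  have key : ∀ a b : L, c ≤ a ⊔ b ↔
      ∀ s ∈ tr (f c), Gen (tr (f a) ∪ tr (f b)) s.1 s.2 := by
    intro a b
    constructor
    · intro h s hs
      have h1 : f c ≤ cl (tr (f a) ∪ tr (f b)) :=
        (hmono _ _ h).trans (fleast a b _ (isLocalClone_cl _)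
          (le_cl Set.subset_union_left) (le_cl Set.subset_union_right))
      obtain ⟨g, hg, hgs⟩ := hs
      exact h1 s.1 hg s.2 hgs
    · intro h
      apply hle
      apply le_of_tr (fcl _)
      intro s hs
      exact mem_tr_of_gen (fcl _) (Set.union_subset (tr_mono (fsup a b).1)
        (tr_mono (fsup a b).2)) (h s hs)
  -- indexing
  have : Nonempty (Σ n, PF n) := ⟨⟨0, ∅⟩⟩
  obtain ⟨e, he⟩ := exists_surjective_nat (Σ n, PF n)
  obtain ⟨d, hd⟩ := exists_surjective_nat (Finset (Σ n, PF n) × Finset (Σ n, PF n))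
  refine ⟨fun n k => if e n ∈ tr (f c) then
      (if Gen (((d k).1 : Set (Σ n, PF n)) ∪ (d k).2) (e n).1 (e n).2 then
        {a | ((d k).1 : Set (Σ n, PF n)) ⊆ tr (f a)} else ∅) else Set.univ,
    fun n k => if e n ∈ tr (f c) then
      {b | ((d k).2 : Set (Σ n, PF n)) ⊆ tr (f b)} else Set.univ, ?_⟩
  ext ⟨a, b⟩
  simp only [Set.mem_ofPred_eq, Set.mem_iInter, Set.mem_iUnion]
  rw [key]
  constructor
  · intro h n
    by_cases hn : e n ∈ tr (f c)
    · obtain ⟨D, hD, hDg⟩ := (h (e n) hn).finitary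
      obtain ⟨k, hk⟩ := hd (D.filter (fun x => x ∈ tr (f a)), D.filter (fun x => x ∈ tr (f b)))
      refine ⟨k, ?_⟩
      have hgen : Gen (((d k).1 : Set (Σ n, PF n)) ∪ (d k).2) (e n).1 (e n).2 := by
        refine hDg.mono ?_
        rw [hk]
        intro x hx
        rcases hD hx with h1 | h1
        · left; simpa using ⟨hx, h1⟩
        · right; simpa using ⟨hx, h1⟩
      simp only [hn, if_true, hgen]
      refine ⟨?_, ?_⟩
      · show ((d k).1 : Set (Σ n, PF n)) ⊆ tr (f a)
        rw [hk]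
        intro x hx
        simp only [Finset.coe_filter, Set.mem_ofPred_eq] at hx
        exact hx.2
      · show ((d k).2 : Set (Σ n, PF n)) ⊆ tr (f b)
        rw [hk]
        intro x hx
        simp only [Finset.coe_filter, Set.mem_ofPred_eq] at hx
        exact hx.2
    · exact ⟨0, by simp [hn]⟩
  · intro h s hs
    obtain ⟨n, rfl⟩ := he s
    obtain ⟨k, hk⟩ := h n
    simp only [hs, if_true] at hk
    obtain ⟨hk1, hk2⟩ := hk
    by_cases hgen : Gen (((d k).1 : Set (Σ n, PF n)) ∪ (d k).2) (e n).1 (e n).2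
    · simp only [hgen, if_true] at hk1
      refine hgen.mono ?_
      exact Set.union_subset_union hk1 hk2
    · simp only [hgen, if_false] at hk1
      exact absurd hk1 (Set.notMem_empty _)


/-! ### The lattice attached to a plane set -/

/-- The closed sets: `∅`, singletons, the pairs `{x, y}` with `(x, y) ∉ R`, and everything. -/
def IsFlat (R : Set (ℝ × ℝ)) (s : Set (ℝ ⊕ ℝ)) : Prop :=
  s = Set.univ ∨ s.Subsingleton ∨ ∃ x y : ℝ, (x, y) ∉ R ∧ s = {Sum.inl x, Sum.inr y}

theorem IsFlat.sInter {R : Set (ℝ × ℝ)} {S : Set (Set (ℝ ⊕ ℝ))} (h : ∀ s ∈ S, IsFlat R s) :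
    IsFlat R (⋂₀ S) := by
  classical
  by_cases h1 : ∀ s ∈ S, s = Set.univ
  · left
    exact Set.sInter_eq_univ.2 h1
  · push Not at h1
    obtain ⟨s, hs, hsu⟩ := h1
    rcases h s hs with h2 | h2 | ⟨x, y, hxy, h2⟩
    · exact absurd h2 hsu
    · right; left
      exact h2.anti (Set.sInter_subset_of_mem hs)
    · by_cases hx : Sum.inl x ∈ ⋂₀ S
      · by_cases hy : Sum.inr y ∈ ⋂₀ S
        · right; right
          refine ⟨x, y, hxy, Set.Subset.antisymm ?_ ?_⟩
          · rw [← h2]; exact Set.sInter_subset_of_mem hs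
          · intro z hz
            rcases hz with rfl | hz
            · exact hx
            · rw [Set.mem_singleton_iff] at hz
              rw [hz]; exact hy
        · right; left
          intro a ha b hb
          have ha' := Set.sInter_subset_of_mem hs ha
          have hb' := Set.sInter_subset_of_mem hs hb
          rw [h2] at ha' hb'
          rcases ha' with rfl | ha'
          · rcases hb' with rfl | hb'
            · rfl
            · rw [Set.mem_singleton_iff] at hb'
              rw [hb'] at hb; exact absurd hb hy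
          · rw [Set.mem_singleton_iff] at ha'
            rw [ha'] at ha; exact absurd ha hy
      · right; left
        intro a ha b hb
        have ha' := Set.sInter_subset_of_mem hs ha
        have hb' := Set.sInter_subset_of_mem hs hb
        rw [h2] at ha' hb'
        rcases ha' with rfl | ha'
        · exact absurd ha hx
        · rcases hb' with rfl | hb'
          · exact absurd hb hx
          · rw [Set.mem_singleton_iff] at ha' hb'
            rw [ha', hb']

/-- The lattice `L_R` of the closed sets, ordered by inclusion. -/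
def LR (R : Set (ℝ × ℝ)) : Type := {s : Set (ℝ ⊕ ℝ) // IsFlat R s}

instance (R : Set (ℝ × ℝ)) : PartialOrder (LR R) :=
  inferInstanceAs (PartialOrder {s : Set (ℝ ⊕ ℝ) // IsFlat R s})

instance (R : Set (ℝ × ℝ)) : InfSet (LR R) :=
  ⟨fun S => ⟨⋂₀ (Subtype.val '' S), IsFlat.sInter (by rintro _ ⟨s, _, rfl⟩; exact s.2)⟩⟩

theorem LR.isGLB (R : Set (ℝ × ℝ)) (S : Set (LR R)) : IsGLB S (sInf S) := by
  constructor
  · intro s hs
    show (sInf S).1 ⊆ s.1
    exact Set.sInter_subset_of_mem ⟨s, hs, rfl⟩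
  · intro t ht
    show t.1 ⊆ ⋂₀ (Subtype.val '' S)
    apply Set.subset_sInter
    rintro _ ⟨s, hs, rfl⟩
    exact ht hs

instance (R : Set (ℝ × ℝ)) : CompleteLattice (LR R) := completeLatticeOfInf _ (LR.isGLB R)

/-- the point of `L_R` given by an element of `ℝ ⊕ ℝ`. -/
def LR.pt (R : Set (ℝ × ℝ)) (v : ℝ ⊕ ℝ) : LR R := ⟨{v}, Or.inr (Or.inl Set.subsingleton_singleton)⟩

def LR.all (R : Set (ℝ × ℝ)) : LR R := ⟨Set.univ, Or.inl rfl⟩

theorem LR.all_le_sup (R : Set (ℝ × ℝ)) (x y : ℝ) :
    LR.all R ≤ LR.pt R (Sum.inl x) ⊔ LR.pt R (Sum.inr y) ↔ (x, y) ∈ R := by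
  constructor
  · intro h
    by_contra hxy
    have h1 : LR.pt R (Sum.inl x) ⊔ LR.pt R (Sum.inr y) ≤
        (⟨{Sum.inl x, Sum.inr y}, Or.inr (Or.inr ⟨x, y, hxy, rfl⟩)⟩ : LR R) := by
      apply sup_le
      · show ({Sum.inl x} : Set (ℝ ⊕ ℝ)) ⊆ {Sum.inl x, Sum.inr y}
        intro z hz; left; exact hz
      · show ({Sum.inr y} : Set (ℝ ⊕ ℝ)) ⊆ {Sum.inl x, Sum.inr y}
        intro z hz; right; exact hz
    have h2 : (Set.univ : Set (ℝ ⊕ ℝ)) ⊆ {Sum.inl x, Sum.inr y} := h.trans h1
    have h3 : (Sum.inl (x + 1) : ℝ ⊕ ℝ) ∈ ({Sum.inl x, Sum.inr y} : Set (ℝ ⊕ ℝ)) := h2 trivial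
    simp at h3
  · intro hxy
    set J := LR.pt R (Sum.inl x) ⊔ LR.pt R (Sum.inr y) with hJ
    have hx : (Sum.inl x : ℝ ⊕ ℝ) ∈ J.1 :=
      (show LR.pt R (Sum.inl x) ≤ J from le_sup_left) (Set.mem_singleton _)
    have hy : (Sum.inr y : ℝ ⊕ ℝ) ∈ J.1 :=
      (show LR.pt R (Sum.inr y) ≤ J from le_sup_right) (Set.mem_singleton _)
    rcases J.2 with h | h | ⟨x', y', hxy', h⟩
    · show (Set.univ : Set (ℝ ⊕ ℝ)) ⊆ J.1
      rw [h]
    · exact absurd (h hx hy) (by simp)
    · rw [h] at hx hy
      simp at hx hy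
      rw [hx, hy] at hxy
      exact absurd hxy hxy'

theorem LR.chain (R : Set (ℝ × ℝ)) (S : Set (LR R)) (hS : IsChain (· ≤ ·) S) :
    S.encard ≤ 4 := by
  classical
  let rk : LR R → ℕ := fun s => if s.1 = Set.univ then 3 else s.1.ncard
  have hfin : ∀ s : LR R, s.1 ≠ Set.univ → s.1.Finite ∧ s.1.ncard ≤ 2 := by
    intro s hs
    rcases s.2 with h | h | ⟨x, y, _, h⟩
    · exact absurd h hs
    · refine ⟨h.finite, ?_⟩
      rcases h.eq_empty_or_singleton with h1 | ⟨a, h1⟩
      · rw [h1]; simp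
      · rw [h1]; simp
    · rw [h]
      refine ⟨by simp, ?_⟩
      exact (Set.ncard_insert_le _ _).trans (by simp)
  have hmono : ∀ s t : LR R, s ≤ t → rk s = rk t → s = t := by
    intro s t hst hrk
    have hst' : s.1 ⊆ t.1 := hst
    by_cases ht : t.1 = Set.univ
    · by_cases hs : s.1 = Set.univ
      · exact Subtype.ext (hs.trans ht.symm)
      · exfalso
        simp only [rk, ht, hs, if_true, if_false] at hrk
        have := (hfin s hs).2
        omega
    · have hs : s.1 ≠ Set.univ := by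
        intro hs
        rw [hs] at hst'
        exact ht (Set.univ_subset_iff.1 hst')
      simp only [rk, ht, hs, if_false] at hrk
      exact Subtype.ext (Set.eq_of_subset_of_ncard_le hst' hrk.ge (hfin t ht).1)
  have h1 : Set.MapsTo rk S (Finset.range 4 : Set ℕ) := by
    intro s _
    simp only [Finset.coe_range, Set.mem_Iio, rk]
    split_ifs with h
    · norm_num
    · have := (hfin s h).2; omega
  have h2 : Set.InjOn rk S := by
    intro s hs t ht hrk
    rcases hS.total hs ht with h | h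
    · exact hmono s t h hrk
    · exact (hmono t s h hrk.symm).symm
  have h3 := Set.encard_le_encard_of_injOn h1 h2
  refine h3.trans ?_
  rw [Set.encard_coe_eq_coe_finsetCard]
  simp

theorem LR.mk (R : Set (ℝ × ℝ)) : Cardinal.mk (LR R) = Cardinal.continuum := by
  classical
  apply le_antisymm
  · have h1 : ∀ s : LR R, ∃ o : Option (Finset (ℝ ⊕ ℝ)),
        (match o with | none => Set.univ | some F => (F : Set (ℝ ⊕ ℝ))) = s.1 := by
      intro s
      by_cases hs : s.1 = Set.univ
      · exact ⟨none, hs.symm⟩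
      · have hf : s.1.Finite := by
          rcases s.2 with h | h | ⟨x, y, _, h⟩
          · exact absurd h hs
          · exact h.finite
          · rw [h]; simp
        exact ⟨some hf.toFinset, by simp⟩
    choose o ho using h1
    have hinj : Function.Injective o := by
      intro s t hst
      apply Subtype.ext
      rw [← ho s, ← ho t, hst]
    have h2 := Cardinal.mk_le_of_injective hinj
    refine h2.trans ?_
    rw [Cardinal.mk_option, Cardinal.mk_finset_of_infinite, Cardinal.mk_sum]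
    simp only [Cardinal.mk_real, Cardinal.lift_continuum]
    exact Cardinal.add_le_of_le Cardinal.aleph0_le_continuum
      (Cardinal.add_le_of_le Cardinal.aleph0_le_continuum le_rfl le_rfl)
      ((Cardinal.nat_lt_continuum 1).le.trans' (by simp))
  · have hinj : Function.Injective (fun x : ℝ => LR.pt R (Sum.inl x)) := by
      intro x y hxy
      have h1 : ({Sum.inl x} : Set (ℝ ⊕ ℝ)) = {Sum.inl y} := congrArg Subtype.val hxy
      simpa using h1
    have h2 := Cardinal.mk_le_of_injective hinj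
    rwa [Cardinal.mk_real] at h2

/-- For every plane set `R` there is a lattice of cardinality continuum, all of whose chains have
at most four elements, such that if this lattice embeds in the lattice of local clones on a
countable set, then `R` is a countable intersection of countable unions of rectangles. -/
theorem result (R : Set (ℝ × ℝ)) :
    ∃ (L : Type) (_ : Lattice L), (∀ s : Set L, IsChain (· ≤ ·) s → s.encard ≤ 4) ∧
      Cardinal.mk L = Cardinal.continuum ∧
      (EmbedsInLocalClones L →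
        ∃ A B : ℕ → ℕ → Set ℝ, R = ⋂ n, ⋃ k, A n k ×ˢ B n k) := by
  refine ⟨LR R, inferInstance, LR.chain R, LR.mk R, fun h => ?_⟩
  obtain ⟨A, B, hAB⟩ := sup_relation h (LR.all R)
  refine ⟨fun n k => {x | LR.pt R (Sum.inl x) ∈ A n k},
    fun n k => {y | LR.pt R (Sum.inr y) ∈ B n k}, ?_⟩
  ext ⟨x, y⟩
  have h1 : (LR.pt R (Sum.inl x), LR.pt R (Sum.inr y)) ∈
      {p : LR R × LR R | LR.all R ≤ p.1 ⊔ p.2} ↔ (x, y) ∈ R := LR.all_le_sup R x y
  rw [← h1, hAB]
  simp only [Set.mem_iInter, Set.mem_iUnion, Set.mem_prod]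
  rfl

end Pool.Agent.Results.MP_c0a48b_al.EmbeddingForcesRectangles
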