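import Mathlib
import Pool.Agent.Results.MP_c0a48b_al.AlephOne
import Pool.Agent.Results.MP_c0a48b_al.EmbeddingForcesRectangles

set_option autoImplicit false

namespace Pool.Agent.Results.MP_c0a48b_al.Independence

/-- A family of sets of finitary operations on the countable set `ℕ`; the set with index `n`
consists of operations of arity `n + 1`. -/
abbrev OpFam : Type := ∀ n : ℕ, Set ((Fin (n + 1) → ℕ) → ℕ)

/-- `C` is a local clone on `ℕ`: it contains all projections, is closed under composition, and is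
locally closed. -/
structure IsLocalClone (C : OpFam) : Prop where
  proj : ∀ (n : ℕ) (i : Fin (n + 1)), (fun x : Fin (n + 1) → ℕ => x i) ∈ C n
  comp : ∀ (n m : ℕ) (g : (Fin (n + 1) → ℕ) → ℕ) (hs : Fin (n + 1) → (Fin (m + 1) → ℕ) → ℕ),
    g ∈ C n → (∀ i, hs i ∈ C m) → (fun x : Fin (m + 1) → ℕ => g (fun i => hs i x)) ∈ C m
  closed : ∀ (n : ℕ) (g : (Fin (n + 1) → ℕ) → ℕ),
    (∀ F : Finset (Fin (n + 1) → ℕ), ∃ h ∈ C n, ∀ x ∈ F, h x = g x) → g ∈ C n

/-- `L` admits a lattice embedding into the lattice of local clones on `ℕ`: an injective map `f`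
into local clones such that `f (a ⊓ b)` is the intersection of `f a` and `f b`, and `f (a ⊔ b)` is
the least local clone containing `f a` and `f b`. -/
def EmbedsInLocalClones (L : Type) [Lattice L] : Prop :=
  ∃ f : L → OpFam, Function.Injective f ∧ (∀ a, IsLocalClone (f a)) ∧
    (∀ a b, f (a ⊓ b) = f a ⊓ f b) ∧
    (∀ a b, f a ≤ f (a ⊔ b) ∧ f b ≤ f (a ⊔ b)) ∧
    (∀ a b C, IsLocalClone C → f a ≤ C → f b ≤ C → f (a ⊔ b) ≤ C)

/-- The positive answer to Q1: every lattice of finite height and of cardinality `2^ℵ₀` admits a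
lattice embedding into the lattice of local clones on a countably infinite set. -/
def Yes : Prop :=
  ∀ (L : Type) [Lattice L], (∃ N : ℕ, ∀ s : Set L, IsChain (· ≤ ·) s → s.encard ≤ (N : ℕ∞)) →
    Cardinal.mk L = Cardinal.continuum → EmbedsInLocalClones L

theorem embeds_iff_left {L : Type} [Lattice L] :
    EmbedsInLocalClones L ↔ AlephOne.EmbedsInLocalClones L :=
  ⟨fun ⟨f, h1, h2, h3, h4, h5⟩ => ⟨f, h1, fun a => ⟨(h2 a).proj, (h2 a).comp, (h2 a).closed⟩, h3, h4,
    fun a b C hC => h5 a b C ⟨hC.proj, hC.comp, hC.closed⟩⟩,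
   fun ⟨f, h1, h2, h3, h4, h5⟩ => ⟨f, h1, fun a => ⟨(h2 a).proj, (h2 a).comp, (h2 a).closed⟩, h3, h4,
    fun a b C hC => h5 a b C ⟨hC.proj, hC.comp, hC.closed⟩⟩⟩

theorem embeds_iff_right {L : Type} [Lattice L] :
    EmbedsInLocalClones L ↔ EmbeddingForcesRectangles.EmbedsInLocalClones L :=
  ⟨fun ⟨f, h1, h2, h3, h4, h5⟩ => ⟨f, h1, fun a => ⟨(h2 a).proj, (h2 a).comp, (h2 a).closed⟩, h3, h4,
    fun a b C hC => h5 a b C ⟨hC.proj, hC.comp, hC.closed⟩⟩,
   fun ⟨f, h1, h2, h3, h4, h5⟩ => ⟨f, h1, fun a => ⟨(h2 a).proj, (h2 a).comp, (h2 a).closed⟩, h3, h4,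
    fun a b C hC => h5 a b C ⟨hC.proj, hC.comp, hC.closed⟩⟩⟩

/-- (1) Lattices of finite height with at most `ℵ₁` elements embed in the lattice of local clones.
(2) Hence the answer to Q1 is yes if `2^ℵ₀ = ℵ₁`. (3) If the answer to Q1 is yes, then every plane
set is a countable intersection of countable unions of rectangles. -/
theorem result :
    (∀ (L : Type) [Lattice L], (∀ s : Set L, IsChain (· ≤ ·) s → s.Finite) →
      Cardinal.mk L ≤ Cardinal.aleph 1 → EmbedsInLocalClones L) ∧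
    (Cardinal.continuum.{0} = Cardinal.aleph.{0} 1 → Yes) ∧
    (Yes → ∀ R : Set (ℝ × ℝ), ∃ A B : ℕ → ℕ → Set ℝ, R = ⋂ n, ⋃ k, A n k ×ˢ B n k) := by
  refine ⟨?_, ?_, ?_⟩
  · intro L _ h1 h2
    exact embeds_iff_left.2 (AlephOne.result L h2 h1)
  · rintro hc L _ ⟨N, hN⟩ hL
    refine embeds_iff_left.2 (AlephOne.result L (hL.trans hc).le ?_)
    intro s hs
    exact Set.finite_of_encard_le_coe (hN s hs)
  · intro hyes R
    obtain ⟨L, hL, h1, h2, h3⟩ := EmbeddingForcesRectangles.result R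
    exact h3 (embeds_iff_right.1 (hyes L ⟨4, h1⟩ h2))

end Pool.Agent.Results.MP_c0a48b_al.Independence
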